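import Pool.Agent.X84.Fl.Ham

/-!
# Definitions: time maps of fields of Hamiltonian type
-/

open scoped Topology ContDiff Manifold
open Set Filter Bundle

set_option autoImplicit false
set_option linter.unusedSectionVars false

noncomputable section

namespace Pool.Agent.X84.Fm.Defs

universe u v

variable (E : Type u) [NormedAddCommGroup E] [NormedSpace ℝ E] [FiniteDimensional ℝ E]
  (P : Type v) [TopologicalSpace P] [ChartedSpace E P] [IsManifold 𝓘(ℝ, E) ∞ P]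

/-- vector fields on `P` -/
abbrev Field := (x : P) → TangentSpace 𝓘(ℝ, E) x

/-- the real vector space of `C^∞` vector fields on `P` -/
def SmoothFields [T2Space P] [CompactSpace P] : Submodule ℝ (Field E P) where
  carrier := {X | ContMDiff 𝓘(ℝ, E) 𝓘(ℝ, E).tangent ∞
    (fun x => (⟨x, X x⟩ : TangentBundle 𝓘(ℝ, E) P))}
  add_mem' hX hY := Pool.Agent.X84.Fl.SmF.add hX hY
  zero_mem' := Pool.Agent.X84.Fl.SmF.zero
  smul_mem' c _ hX := Pool.Agent.X84.Fl.SmF.smul hX c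

/-- the real vector space of `C^∞` functions on `P` -/
abbrev Fun := C^∞⟮𝓘(ℝ, E), P; 𝓘(ℝ, ℝ), ℝ⟯

variable {E P}

/-- `φ` is the flow of `X` -/
def IsFlowOf (X : Field E P) (φ : Flow ℝ P) : Prop :=
  ∀ x, IsMIntegralCurve (I := 𝓘(ℝ, E)) (fun t => φ t x) X

/-- `B` is a `C^∞` field of bilinear forms on the tangent spaces -/
def SmoothForm (B : (x : P) → TangentSpace 𝓘(ℝ, E) x →L[ℝ] TangentSpace 𝓘(ℝ, E) x →L[ℝ] ℝ) :
    Prop :=
  ∀ x, ∀ u v : Field E P,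
    ContMDiffAt 𝓘(ℝ, E) 𝓘(ℝ, E).tangent ∞ (fun p => (⟨p, u p⟩ : TangentBundle 𝓘(ℝ, E) P)) x →
    ContMDiffAt 𝓘(ℝ, E) 𝓘(ℝ, E).tangent ∞ (fun p => (⟨p, v p⟩ : TangentBundle 𝓘(ℝ, E) P)) x →
    ContMDiffAt 𝓘(ℝ, E) 𝓘(ℝ, ℝ) ∞ (fun p => B p (u p) (v p)) x

variable (E P)

/-- `F` is a time map of a field of Hamiltonian type: there are a linear operator `A` from `C^∞`
functions to `C^∞` vector fields with `df(A f) ≥ 0` for all `f`, a `C^∞` function `h` and a real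
number `T` such that `F` is the time `T` map of the flow of `A h`. -/
def HamiltonianType [T2Space P] [CompactSpace P] (F : P → P) : Prop :=
  ∃ A : Fun E P →ₗ[ℝ] SmoothFields E P,
    (∀ (f : Fun E P) (x : P), (0 : ℝ) ≤ mfderiv 𝓘(ℝ, E) 𝓘(ℝ, ℝ) f x ((A f).1 x)) ∧
    ∃ (h : Fun E P) (φ : Flow ℝ P) (T : ℝ), IsFlowOf (A h).1 φ ∧ ∀ x, F x = φ T x

/-- `F` is the time `T` map of the flow of a field `X` with `B(X, ·) = dh`, where `h` is a `C^∞`
function and `B` a `C^∞` field of nondegenerate bilinear forms with `B(v, v) ≥ 0`. -/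
def FormType (F : P → P) : Prop :=
  ∃ B : (x : P) → TangentSpace 𝓘(ℝ, E) x →L[ℝ] TangentSpace 𝓘(ℝ, E) x →L[ℝ] ℝ, SmoothForm B ∧
    (∀ x (v : TangentSpace 𝓘(ℝ, E) x), 0 ≤ B x v v) ∧
    (∀ x (u : TangentSpace 𝓘(ℝ, E) x), (∀ v, B x u v = 0) → u = 0) ∧
    ∃ (h : Fun E P) (X : Field E P) (φ : Flow ℝ P) (T : ℝ),
      (∀ x v, B x (X x) v = mfderiv 𝓘(ℝ, E) 𝓘(ℝ, ℝ) h x v) ∧ IsFlowOf X φ ∧ ∀ x, F x = φ T x

end Pool.Agent.X84.Fm.Defs
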