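import Pool.Agent.X84.Fm.Par
import Pool.Agent.X84.Fm.Defs
import Pool.Agent.Y318.MN.Main
import Pool.Agent.Y318.MN.Attr
import Pool.Agent.Y504.CO.Plug

/-!
# Time maps of fields of Hamiltonian type
-/

open scoped Topology ContDiff Manifold
open Set Filter Bundle MeasureTheory Pool.Agent.Helper186 Pool.Agent.H826R2.Wein

set_option autoImplicit false
set_option linter.unusedSectionVars false

noncomputable section

namespace Pool.Agent.X84.Fm

open Pool.Agent.X84.Fl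
open Pool.Agent.H718R2.G Pool.Agent.TH80.OMS Pool.Agent.Y504.CO Pool.Agent.Y318.MN

universe u

variable (n : ℕ) (N : Type u) [TopologicalSpace N] [ChartedSpace (V n) N] [IsManifold (𝓡 n) ∞ N]

/-- vector fields on `N` -/
abbrev Field := (x : N) → TangentSpace (𝓡 n) x

/-- the real vector space of `C^∞` functions on `N` -/
abbrev Fun := C^∞⟮𝓡 n, N; 𝓘(ℝ, ℝ), ℝ⟯

/-- the real vector space of `C^∞` vector fields on `N` -/
def SmoothFields [T2Space N] [CompactSpace N] : Submodule ℝ (Field n N) where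
  carrier := {X | ContMDiff (𝓡 n) (𝓡 n).tangent ∞
    (fun x => (⟨x, X x⟩ : TangentBundle (𝓡 n) N))}
  add_mem' hX hY := Pool.Agent.X84.Fl.SmF.add (E := V n) hX hY
  zero_mem' := Pool.Agent.X84.Fl.SmF.zero (E := V n)
  smul_mem' c _ hX := Pool.Agent.X84.Fl.SmF.smul (E := V n) hX c

variable {n N}

/-- `φ` is the flow of `X` -/
def IsFlowOf (X : Field n N) (φ : Flow ℝ N) : Prop :=
  ∀ x, IsMIntegralCurve (I := 𝓡 n) (fun t => φ t x) X

/-- `F` is a time map of a field of Hamiltonian type: there are a linear operator `A` from `C^∞`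
functions to `C^∞` vector fields with `df(A f) ≥ 0` for all `f`, a `C^∞` function `h` and a real
number `T` such that `F` is the time `T` map of the flow of `A h`. -/
def HamiltonianType [T2Space N] [CompactSpace N] {r : ℕ∞} (F : DiffM n N r) : Prop :=
  ∃ A : Fun n N →ₗ[ℝ] SmoothFields n N,
    (∀ (f : Fun n N) (x : N), (0 : ℝ) ≤ mfderiv (𝓡 n) 𝓘(ℝ, ℝ) f x ((A f).1 x)) ∧
    ∃ (h : Fun n N) (φ : Flow ℝ N) (T : ℝ), IsFlowOf (A h).1 φ ∧ ∀ x, F x = φ T x

/-- `B` is a `C^∞` field of bilinear forms on the tangent spaces -/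
def SmoothForm (B : (x : N) → TangentSpace (𝓡 n) x →L[ℝ] TangentSpace (𝓡 n) x →L[ℝ] ℝ) : Prop :=
  ∀ x, ∀ u v : Field n N,
    ContMDiffAt (𝓡 n) (𝓡 n).tangent ∞ (fun p => (⟨p, u p⟩ : TangentBundle (𝓡 n) N)) x →
    ContMDiffAt (𝓡 n) (𝓡 n).tangent ∞ (fun p => (⟨p, v p⟩ : TangentBundle (𝓡 n) N)) x →
    ContMDiffAt (𝓡 n) 𝓘(ℝ, ℝ) ∞ (fun p => B p (u p) (v p)) x

/-- `F` is the time `T` map of the flow of a field `X` with `B(X, ·) = dh`, where `h` is a `C^∞`
function and `B` a `C^∞` field of nondegenerate bilinear forms with `B(v, v) ≥ 0` -/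
def FormType {r : ℕ∞} (F : DiffM n N r) : Prop :=
  ∃ B : (x : N) → TangentSpace (𝓡 n) x →L[ℝ] TangentSpace (𝓡 n) x →L[ℝ] ℝ, SmoothForm B ∧
    (∀ x (v : TangentSpace (𝓡 n) x), 0 ≤ B x v v) ∧
    (∀ x (u : TangentSpace (𝓡 n) x), (∀ v, B x u v = 0) → u = 0) ∧
    ∃ (h : Fun n N) (X : Field n N) (φ : Flow ℝ N) (T : ℝ),
      (∀ x v, B x (X x) v = mfderiv (𝓡 n) 𝓘(ℝ, ℝ) h x v) ∧ IsFlowOf X φ ∧ ∀ x, F x = φ T x

variable [T2Space N] [CompactSpace N] {r : ℕ∞}

theorem FormType.ham {F : DiffM n N r} (hF : FormType F) : HamiltonianType F := by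
  obtain ⟨B, hB, hnn, hnd, h, X, φ, T, hX, hφ, hT⟩ := hF
  have h4 : Pool.Agent.X84.Fl.opB (E := V n) hnd h = X := by
    funext x
    apply Pool.Agent.X84.Fl.sharp_unique (E := V n) hnd
    intro v
    rw [Pool.Agent.X84.Fl.opB_spec, hX]
    rfl
  let A : Fun n N →ₗ[ℝ] SmoothFields n N := LinearMap.codRestrict (SmoothFields n N)
    (Pool.Agent.X84.Fl.opB (E := V n) hnd) fun f => Pool.Agent.X84.Fl.opB_smooth (E := V n) hB hnd f
  refine ⟨A, ?_, h, φ, T, ?_, hT⟩
  · intro f x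
    have h2 := Pool.Agent.X84.Fl.opB_spec (E := V n) hnd f x
      (Pool.Agent.X84.Fl.opB (E := V n) hnd f x)
    have h3 := hnn x (Pool.Agent.X84.Fl.opB (E := V n) hnd f x)
    rw [h2] at h3
    exact h3
  · show IsFlowOf (Pool.Agent.X84.Fl.opB (E := V n) hnd h) φ
    rw [h4]
    exact hφ

/-- the flow of `-X` -/
theorem reverse {X : Field n N} {φ : Flow ℝ N} (hφ : IsFlowOf X φ) :
    IsFlowOf (-X) φ.reverse := by
  intro x
  have h1 := (hφ x).comp_mul (-1)
  have h2 : (fun t => φ.reverse t x) = (fun t => φ t x) ∘ (· * (-1)) := by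
    funext t
    show φ (-t) x = φ (t * -1) x
    rw [mul_neg_one]
  have h3 : (-X : Field n N) = (-1 : ℝ) • X := by rw [neg_one_smul]
  rw [h2, h3]
  exact h1

/-- one may assume that the time is nonnegative -/
theorem HamiltonianType.nonneg {F : DiffM n N r} (hF : HamiltonianType F) :
    ∃ A : Fun n N →ₗ[ℝ] SmoothFields n N,
    (∀ (f : Fun n N) (x : N), (0 : ℝ) ≤ mfderiv (𝓡 n) 𝓘(ℝ, ℝ) f x ((A f).1 x)) ∧
    ∃ (h : Fun n N) (φ : Flow ℝ N) (T : ℝ), 0 ≤ T ∧ IsFlowOf (A h).1 φ ∧ ∀ x, F x = φ T x := by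
  obtain ⟨A, hA, h, φ, T, hφ, hF⟩ := hF
  rcases le_total 0 T with hT | hT
  · exact ⟨A, hA, h, φ, T, hT, hφ, hF⟩
  · refine ⟨A, hA, -h, φ.reverse, -T, by linarith, ?_, fun x => ?_⟩
    · have h1 := reverse hφ
      rw [map_neg]
      exact h1
    · rw [hF]
      show φ T x = φ (- -T) x
      rw [neg_neg]

/-- **Approximation.** Near a time map of a field of Hamiltonian type there are such maps which do
not decrease a Morse function. -/
theorem near_morse (hr : 1 ≤ r) {F : DiffM n N r} (hF : HamiltonianType F) (U : Set (DiffM n N r))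
    (hU : IsOpen[strongTop n N r] U) (hFU : F ∈ U) :
    ∃ (q : N → ℝ) (G : DiffM n N r), G ∈ U ∧ ContMDiff (𝓡 n) 𝓘(ℝ, ℝ) ∞ q ∧
      (∀ x, q x ≤ q (G x)) ∧ {x | IsCrit n q x}.Finite ∧
      (∀ z, IsCrit n q z → Nondeg n q z ∧ G z = z) := by
  classical
  obtain ⟨A, hA, h, φ, T, hT, hφ, hF⟩ := hF.nonneg
  obtain ⟨ι, f, -⟩ := SmoothBumpCovering.exists_isSubordinate (𝓡 n) (isClosed_univ (X := N))
    fun (x : N) _ => (univ_mem : (univ : Set N) ∈ 𝓝 x)
  have : Fintype ι := f.fintype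
  let S := ι × Fin (dm (V n))
  let g : S → Fun n N := fun s => ⟨fam f s, fam_smooth f s⟩
  let en := Fintype.equivFin S
  let Y : Fin (Fintype.card S) → Field n N := fun j => (A (g (en.symm j))).1
  obtain ⟨κ, hκ, hnear⟩ := time_near (n := n) hr (X := (A h).1) (Y := Y) (A h).2
    (fun j => (A (g (en.symm j))).2) hφ T F hF U hU hFU
  obtain ⟨a, ⟨ha1, ha2⟩, ha3⟩ : ∃ a : S → ℝ, ({x | dForm (𝓡 n) (pf h (fam f) a) x = 0}.Finite ∧
      ∀ z, IsCrit n (pf h (fam f) a) z → Nondeg n (pf h (fam f) a) z) ∧ ‖a‖ < κ := by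
    have h1 := Measure.dense_of_ae ((generic_finite f h.contMDiff).and (generic_nd f h.contMDiff))
    obtain ⟨a, ha, ha'⟩ := h1.exists_mem_open (Metric.isOpen_ball (x := (0 : S → ℝ)) (ε := κ))
      ⟨0, Metric.mem_ball_self hκ⟩
    exact ⟨a, ha, by simpa using ha'⟩
  let q : Fun n N := h + ∑ s, a s • g s
  have hqf : (q : N → ℝ) = pf h (fam f) a := by
    funext x
    show (h + ∑ s, a s • g s : Fun n N) x = h x + ∑ s, a s * fam f s x
    rw [ContMDiffMap.coe_add, Pi.add_apply]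
    congr 1
    have : (⇑(∑ s, a s • g s) : N → ℝ) = ∑ s, (⇑(a s • g s) : N → ℝ) :=
      map_sum (ContMDiffMap.coeFnLinearMap : Fun n N →ₗ[ℝ] N → ℝ) _ _
    rw [this, Finset.sum_apply]
    rfl
  have hfield : (A q).1 = aff (A h).1 Y (fun j => a (en.symm j)) := by
    funext x
    unfold aff
    rw [Equiv.sum_comp en.symm (fun s => a s • (A (g s)).1 x)]
    show (A (h + ∑ s, a s • g s)).1 x = _
    rw [map_add, map_sum, Submodule.coe_add, Submodule.coe_sum]
    show (A h).1 x + (∑ s, (A (a s • g s)).1) x = _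
    rw [Finset.sum_apply]
    congr 1
    refine Finset.sum_congr rfl fun s _ => ?_
    rw [map_smul]
    rfl
  have hnorm : ‖(fun j => a (en.symm j) : Kp (Fintype.card S))‖ < κ := by
    refine lt_of_le_of_lt ?_ ha3
    exact (pi_norm_le_iff_of_nonneg (norm_nonneg a)).2 fun j => norm_le_pi_norm a (en.symm j)
  obtain ⟨ψ, hψ⟩ := exists_flow (E := V n) (A q).2
  obtain ⟨G, hGU, hG⟩ := hnear _ hnorm ψ (by rw [← hfield]; exact hψ)
  have hposF : ∀ x, (0 : ℝ) ≤ dForm (𝓡 n) q x ((A q).1 x) := fun x => hA q x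
  refine ⟨q, G, hGU, q.contMDiff, ?_, ?_, ?_⟩
  · intro x
    rw [hG]
    have h1 := mono_along (E := V n) hψ q.contMDiff hposF x hT
    simp only [Flow.map_zero_apply] at h1
    exact h1
  · rw [hqf]; exact ha1
  · intro z hz
    refine ⟨by rw [hqf] at hz ⊢; exact ha2 z hz, ?_⟩
    have hz0 : (A q).1 z = 0 := A_crit (E := V n) ((SmoothFields n N).subtype.comp A) hA hz
    have h1 : IsMIntegralCurve (I := 𝓡 n) (fun _ : ℝ => z) (A q).1 := by
      intro s
      have h2 : HasMFDerivAt 𝓘(ℝ, ℝ) (𝓡 n) (fun _ : ℝ => z) s (0 : ℝ →L[ℝ] V n) :=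
        hasMFDerivAt_const z s
      refine h2.congr_mfderiv ?_
      rw [hz0]
      refine ContinuousLinearMap.ext fun (r : ℝ) => ?_
      show (0 : V n) = r • (0 : V n)
      rw [smul_zero]
    rw [hG]
    exact (flow_unique (E := V n) (A q).2 hψ h1 T).symm

theorem ham_of_defs {F : DiffM n N r} (hF : Defs.HamiltonianType (V n) N F) :
    HamiltonianType F := hF

theorem defs_of_ham {F : DiffM n N r} (hF : HamiltonianType F) :
    Defs.HamiltonianType (V n) N F := hF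

theorem form_of_defs {F : DiffM n N r} (hF : Defs.FormType (V n) N F) : FormType F := hF

/-- **Axiom A approximations.** -/
theorem axiomA (hr : 1 ≤ r) {F : DiffM n N r} (hF : HamiltonianType F) (U : Set (DiffM n N r))
    (hU : IsOpen[strongTop n N r] U) (hFU : F ∈ U) :
    ∃ G ∈ U, FiniteNoCycle G ∧ ∀ p ∈ Omega G, IsHyperbolicPer n G p := by
  obtain ⟨q, G, hGU, hq, hm, -, hnd⟩ := near_morse hr hF U hU hFU
  obtain ⟨G', h1, -, h3, h4, h5, -, -⟩ := axiomA_approx hr G hq hm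
    (fun z hz => (hnd z (hz 0).1).1) U hU hGU
  exact ⟨G', h1, h5, fun p hp => Plug.hyp_charpoly hr G' (h3 hp) (h4 p (h3 hp))⟩

/-- **Stable maps.** -/
theorem stable (hr : 1 ≤ r) {F : DiffM n N r} (hF : OmegaStable n N r F)
    (hcl : ∀ U : Set (DiffM n N r), IsOpen[strongTop n N r] U → F ∈ U →
      ∃ G ∈ U, HamiltonianType G) :
    FiniteNoCycle F ∧ ∀ p ∈ Omega F, IsHyperbolicPer n F p := by
  refine closure_main hr hF fun U hU hFU => ?_
  obtain ⟨G, hGU, hG⟩ := hcl U hU hFU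
  obtain ⟨q, G', hGU', hq, hm, hfin, -⟩ := near_morse hr hG U hU hGU
  refine ⟨G', hGU', q, hq, hm, ?_⟩
  refine (hfin.subset ?_).countable
  rintro x ⟨⟨h1, -⟩, -⟩
  exact (h1 0).1

open Pool.Agent.H728R2.FA (omegaLim FiniteAttractors)

theorem tendsto_of_omegaLim {X : Type*} [TopologicalSpace X] [CompactSpace X] {g : X → X}
    {p z : X} (h : omegaLim g p ⊆ {z}) : Tendsto (fun k : ℕ => g^[k] p) atTop (𝓝 z) := by
  refine le_nhds_of_unique_clusterPt fun y hy => ?_
  have h1 : y ∈ omegaLim g p := by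
    intro W hW m
    have h2 : ∃ᶠ k in atTop, g^[k] p ∈ W := (mapClusterPt_iff_frequently.1 hy) W hW
    obtain ⟨k, hk, hkW⟩ := (frequently_atTop.1 h2) m
    exact ⟨k, hk, hkW⟩
  exact h h1

/-- **Finitely many attractors.** -/
theorem attractors (hr : 1 ≤ r) {F : DiffM n N r} (hF : HamiltonianType F) (U : Set (DiffM n N r))
    (hU : IsOpen[strongTop n N r] U) (hFU : F ∈ U) :
    ∃ G ∈ U, (Omega G).Finite ∧ (∀ p ∈ Omega G, G p = p ∧ IsHyperbolicPer n G p) ∧
      (∀ x, ∃ p ∈ Omega G, Tendsto (fun k : ℕ => G^[k] x) atTop (𝓝 p)) ∧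
      ∀ (_ : MeasurableSpace N) (μ : Measure N), FiniteAttractors μ G := by
  obtain ⟨q, G₀, hG₀U, hq, hm, hfin, hnd⟩ := near_morse hr hF U hU hFU
  set K := {x | IsCrit n q x} with hK
  obtain ⟨Φ, G, hGU, hG, hΦ, hgrow⟩ := exists_push_grow hq hr G₀ U hU hG₀U hfin.toFinset
    (fun p hp => by
      rw [Set.Finite.mem_toFinset] at hp
      exact ⟨hp, (hnd p hp).1⟩)
  have hsub : Omega G ⊆ K := fun x hx => ((omega_sub hq.continuous hm hG hΦ hx) 0).1
  have hfix : ∀ x ∈ K, G x = x := fun x hx => by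
    rw [hG, hΦ.fix x hx]
    exact (hnd x hx).2
  have hKO : K ⊆ Omega G := fun x hx => per_mem_omega (k := 1) le_rfl (by
    show G x = x
    exact hfix x hx)
  have hmet := exists_metric n N
  have : Fintype K := hfin.fintype
  let en := Fintype.equivFin K
  let M : Fin (Fintype.card K) → Set N := fun i => {((en.symm i : K) : N)}
  have hMK : ∀ y ∈ K, y ∈ ⋃ i, M i := by
    intro y hy
    refine mem_iUnion.2 ⟨en ⟨y, hy⟩, ?_⟩
    show y = ((en.symm (en ⟨y, hy⟩) : K) : N)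
    rw [Equiv.symm_apply_apply]
  have hinv : ∀ i, G.toHomeomorph '' M i = M i := by
    intro i
    show G.toHomeomorph '' {((en.symm i : K) : N)} = _
    rw [image_singleton]
    congr 1
    exact hfix _ (en.symm i).2
  have h1 : ∀ p, ∃ i, omegaLim G p ⊆ M i := fun p =>
    cover_of_metric G.toHomeomorph M (fun i => isClosed_singleton) hinv
      (fun i j hij => by
        rw [disjoint_singleton]
        intro h
        exact hij (en.symm.injective (Subtype.ext h)))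
      (fun p => ((omegaLim_sub_omega _ _).trans hsub).trans hMK) p
  refine ⟨G, hGU, hfin.subset hsub, fun p hp => ⟨hfix p (hsub hp), ?_⟩, fun x => ?_,
    fun _ μ => attr_of_metric μ G.toHomeomorph M hinv (fun i => ?_) h1⟩
  · have hpK := hsub hp
    have hper : p ∈ Per G := ⟨1, le_rfl, hfix p hpK⟩
    exact Plug.hyp_charpoly hr G hper (hyp_of_grow hr hq hm hG hΦ hpK (hgrow p (by
      rw [Set.Finite.mem_toFinset]
      exact hpK)))
  · obtain ⟨i, hi⟩ := h1 x
    exact ⟨_, hKO (en.symm i).2, tendsto_of_omegaLim hi⟩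
  · refine ⟨_, mem_singleton _, ?_⟩
    rintro x hx
    rw [mem_singleton_iff.1 hx]
    apply subset_closure
    exact ⟨0, rfl⟩

end Pool.Agent.X84.Fm
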