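import Pool.Agent.X84.Fm.Sard
import Pool.Agent.X84.Fl.Ham
import Pool.Agent.Y318.MN.Cyc

/-!
# Generic functions have nondegenerate critical points
-/

open scoped Topology ContDiff Manifold
open Set Filter Bundle MeasureTheory Pool.Agent.Helper186 Pool.Agent.H826R2.Wein

set_option autoImplicit false
set_option linter.unusedSectionVars false

noncomputable section

namespace Pool.Agent.X84.Fm

open Pool.Agent.X84.Fl

universe u v

section loc

variable {E : Type u} [NormedAddCommGroup E] [NormedSpace ℝ E] [FiniteDimensional ℝ E]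
  {P : Type v} [TopologicalSpace P] [ChartedSpace E P] [IsManifold 𝓘(ℝ, E) ∞ P]
  [T2Space P] {ι : Type*} [Fintype ι] (f : SmoothBumpCovering ι 𝓘(ℝ, E) P)

theorem local_nd (i : ι) {h : P → ℝ} (hh : ContMDiff 𝓘(ℝ, E) 𝓘(ℝ, ℝ) ∞ h) :
    ∀ᵐ a : ι × Fin (dm E) → ℝ, ∀ u ∈ Ub f i, cd (f.c i) (pf h (fam f) a) u = 0 →
      ∀ w, fderiv ℝ (cd (E := E) (f.c i) (pf h (fam f) a)) u w = 0 → w = 0 := by
  classical
  obtain ⟨τ⟩ := exists_tau (E := E)
  set Φ : E × (ι × Fin (dm E) → ℝ) → E := fun p =>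
    τ (cd (f.c i) h p.1 + ∑ s, p.2 s • cd (f.c i) (fam f s) p.1) with hΦ
  set L : E → (ι × Fin (dm E) → ℝ) := fun b s =>
    if s.1 = i then τ.symm b (Module.finBasis ℝ E s.2) else 0 with hL
  have hs : ContDiffOn ℝ 1 Φ (Ub f i ×ˢ univ) := by
    have hsub : ∀ {q : P → ℝ}, ContMDiff 𝓘(ℝ, E) 𝓘(ℝ, ℝ) ∞ q →
        ContDiffOn ℝ 1 (fun p : E × (ι × Fin (dm E) → ℝ) => cd (f.c i) q p.1)
          (Ub f i ×ˢ univ) := fun hq =>
      (cd_smooth (f.c i) hq).comp contDiff_fst.contDiffOn fun p hp => hp.1.1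
    refine τ.contDiff.comp_contDiffOn ?_
    refine (hsub hh).add ?_
    refine ContDiffOn.sum fun s _ => ?_
    have h4 : ContDiffOn ℝ 1 (fun p : E × (ι × Fin (dm E) → ℝ) => p.2 s) (Ub f i ×ˢ univ) :=
      ((contDiff_apply ℝ ℝ s).comp contDiff_snd).contDiffOn
    exact h4.smul (hsub (fam_smooth f s))
  have hlin : ∀ u ∈ Ub f i, ∀ a b, Φ (u, a + L b) = Φ (u, a) + b := by
    intro u hu a b
    have h1 : ∑ s, L b s • cd (f.c i) (fam f s) u = τ.symm b := by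
      rw [Fintype.sum_prod_type, Finset.sum_eq_single i]
      · conv_rhs => rw [← sum_co (τ.symm b)]
        refine Finset.sum_congr rfl fun k _ => ?_
        rw [cd_fam f i k hu]
        simp [hL]
      · intro j _ hj
        refine Finset.sum_eq_zero fun k _ => ?_
        simp [hL, hj]
      · intro h; exact absurd (Finset.mem_univ _) h
    simp only [hΦ, Pi.add_apply, add_smul, Finset.sum_add_distrib, h1]
    rw [← add_assoc, map_add, ContinuousLinearEquiv.apply_symm_apply]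
  filter_upwards [generic_det volume (Ub_open f i) Φ hs L hlin] with a ha u hu h0 w hw
  have h2 : ∀ v ∈ Ub f i, Φ (v, a) = τ (cd (f.c i) (pf h (fam f) a) v) := fun v hv => by
    rw [cd_pf (f.c i) hh (fam_smooth f) a hv.1]
  refine ha u hu (by rw [h2 u hu, h0, map_zero]) w ?_
  have h3 : (fun v => Φ (v, a)) =ᶠ[𝓝 u] fun v => τ (cd (f.c i) (pf h (fam f) a) v) := by
    filter_upwards [(Ub_open f i).mem_nhds hu] with v hv
    exact h2 v hv
  have h4 : DifferentiableAt ℝ (cd (E := E) (f.c i) (pf h (fam f) a)) u :=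
    ((cd_smooth (f.c i) (pf_smooth hh (fam_smooth f) a)).differentiableOn (by simp) u
      hu.1).differentiableAt ((isOpen_extChartAt_target (f.c i)).mem_nhds hu.1)
  have h5 : HasFDerivAt (fun v => τ (cd (f.c i) (pf h (fam f) a) v))
      ((τ : (E →L[ℝ] ℝ) →L[ℝ] E).comp (fderiv ℝ (cd (E := E) (f.c i) (pf h (fam f) a)) u)) u :=
    (τ : (E →L[ℝ] ℝ) →L[ℝ] E).hasFDerivAt.comp u h4.hasFDerivAt
  rw [h3.fderiv_eq, h5.fderiv]
  show τ (fderiv ℝ (cd (E := E) (f.c i) (pf h (fam f) a)) u w) = 0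
  rw [hw, map_zero]

end loc

open Pool.Agent.H718R2.G Pool.Agent.TH80.OMS Pool.Agent.Y504.CO Pool.Agent.Y318.MN

variable {n : ℕ} {N : Type u} [TopologicalSpace N] [T2Space N]
  [ChartedSpace (V n) N] [IsManifold (𝓡 n) ∞ N] [CompactSpace N]

/-- Nondegeneracy in one chart implies nondegeneracy in all charts. -/
theorem nondeg_of_chart {h : N → ℝ} (hh : ContMDiff (𝓡 n) 𝓘(ℝ, ℝ) ∞ h) {p : N}
    {ψ : OpenPartialHomeomorph N (V n)} (hψ : ψ ∈ IsManifold.maximalAtlas (𝓡 n) ∞ N)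
    (hp : p ∈ ψ.source) (h0 : fderiv ℝ (fun w => h (ψ.symm w)) (ψ p) = 0)
    (hnd : ∀ w, fderiv ℝ (fderiv ℝ fun w => h (ψ.symm w)) (ψ p) w = 0 → w = 0) :
    Nondeg n h p := by
  intro χ hχ hpχ v hv
  have hle : (2 : WithTop ℕ∞) ≤ ∞ := WithTop.coe_le_coe.2 (le_top : (2 : ℕ∞) ≤ ⊤)
  have h1 : ContDiffAt ℝ ∞ (fun w => ψ (χ.symm w)) (χ p) := trans_cd hχ hψ hpχ hp
  have h2 : ContDiffAt ℝ ∞ (fun w => χ (ψ.symm w)) (ψ p) := trans_cd hψ hχ hp hpχ
  have h3 : ContDiffAt ℝ ∞ (fun w => h (ψ.symm w)) (ψ p) := chart_cd hh hψ (ψ.map_source hp)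
  have hval : ψ (χ.symm (χ p)) = ψ p := by rw [χ.left_inv hpχ]
  have hinj : ∀ w, fderiv ℝ (fun w => ψ (χ.symm w)) (χ p) w = 0 → w = 0 := by
    intro w hw
    have k1 : (fun w => χ (ψ.symm w)) ∘ (fun w => ψ (χ.symm w)) =ᶠ[𝓝 (χ p)] id := by
      have k2 : ∀ᶠ w in 𝓝 (χ p), w ∈ χ.target := χ.open_target.mem_nhds (χ.map_source hpχ)
      have k3 : ∀ᶠ w in 𝓝 (χ p), χ.symm w ∈ ψ.source := by
        apply (χ.continuousAt_symm (χ.map_source hpχ)).eventually
        rw [χ.left_inv hpχ]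
        exact ψ.open_source.mem_nhds hp
      filter_upwards [k2, k3] with w hw1 hw2
      show χ (ψ.symm (ψ (χ.symm w))) = w
      rw [ψ.left_inv hw2, χ.right_inv hw1]
    have k4 : HasFDerivAt ((fun w => χ (ψ.symm w)) ∘ (fun w => ψ (χ.symm w)))
        ((fderiv ℝ (fun w => χ (ψ.symm w)) (ψ p)).comp
          (fderiv ℝ (fun w => ψ (χ.symm w)) (χ p))) (χ p) := by
      apply HasFDerivAt.comp
      · show HasFDerivAt _ _ (ψ (χ.symm (χ p)))
        rw [hval]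
        exact (h2.differentiableAt (by simp)).hasFDerivAt
      · exact (h1.differentiableAt (by simp)).hasFDerivAt
    have k5 : HasFDerivAt ((fun w => χ (ψ.symm w)) ∘ (fun w => ψ (χ.symm w)))
        (ContinuousLinearMap.id ℝ (V n)) (χ p) := (hasFDerivAt_id (χ p)).congr_of_eventuallyEq k1
    have k6 := DFunLike.congr_fun (k4.unique k5) w
    have k7 : fderiv ℝ (fun w => χ (ψ.symm w)) (ψ p)
        (fderiv ℝ (fun w => ψ (χ.symm w)) (χ p) w) = w := k6
    rw [hw, map_zero] at k7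
    exact k7.symm
  have hev : (fun w => h (χ.symm w)) =ᶠ[𝓝 (χ p)]
      (fun w => h (ψ.symm w)) ∘ (fun w => ψ (χ.symm w)) := by
    have k3 : ∀ᶠ w in 𝓝 (χ p), χ.symm w ∈ ψ.source := by
      apply (χ.continuousAt_symm (χ.map_source hpχ)).eventually
      rw [χ.left_inv hpχ]
      exact ψ.open_source.mem_nhds hp
    filter_upwards [k3] with w hw
    show h (χ.symm w) = h (ψ.symm (ψ (χ.symm w)))
    rw [ψ.left_inv hw]
  rw [hev.fderiv.fderiv_eq] at hv
  refine nondeg_change (g := fun w => h (ψ.symm w)) (φ := fun w => ψ (χ.symm w)) (u := χ p)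
    ?_ (h1.of_le hle) hinj ?_ ?_ v hv
  · show ContDiffAt ℝ 2 _ (ψ (χ.symm (χ p)))
    rw [hval]
    exact h3.of_le hle
  · show fderiv ℝ _ (ψ (χ.symm (χ p))) = 0
    rw [hval]
    exact h0
  · show ∀ w, fderiv ℝ (fderiv ℝ _) (ψ (χ.symm (χ p))) w = 0 → w = 0
    rw [hval]
    exact hnd

/-- **Generic Morse functions.** -/
theorem generic_nd {ι : Type*} [Fintype ι] (f : SmoothBumpCovering ι (𝓡 n) N) {h : N → ℝ}
    (hh : ContMDiff (𝓡 n) 𝓘(ℝ, ℝ) ∞ h) :
    ∀ᵐ a : ι × Fin (dm (V n)) → ℝ, ∀ z, IsCrit n (pf h (fam f) a) z →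
      Nondeg n (pf h (fam f) a) z := by
  have h1 : ∀ᵐ a : ι × Fin (dm (V n)) → ℝ, ∀ i, ∀ u ∈ Ub f i, cd (f.c i) (pf h (fam f) a) u = 0 →
      ∀ w, fderiv ℝ (cd (E := V n) (f.c i) (pf h (fam f) a)) u w = 0 → w = 0 :=
    ae_all_iff.2 fun i => local_nd f i hh
  filter_upwards [h1] with a ha z hz
  have hq := pf_smooth hh (fam_smooth f) a
  set q := pf h (fam f) a with hqd
  set i := f.ind z (mem_univ z) with hi
  have hsrc : z ∈ (extChartAt (𝓡 n) (f.c i)).source := f.mem_extChartAt_ind_source z (mem_univ z)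
  have hOb : z ∈ Ob f i := by
    rw [Ob, mem_interior_iff_mem_nhds]
    exact f.eventuallyEq_one z (mem_univ z)
  have hu : extChartAt (𝓡 n) (f.c i) z ∈ Ub f i := by
    refine ⟨(extChartAt (𝓡 n) (f.c i)).map_source hsrc, ?_⟩
    show (extChartAt (𝓡 n) (f.c i)).symm (extChartAt (𝓡 n) (f.c i) z) ∈ Ob f i
    rw [(extChartAt (𝓡 n) (f.c i)).left_inv hsrc]
    exact hOb
  have hsrc' : z ∈ (chartAt (V n) (f.c i)).source := by
    rwa [extChartAt_source] at hsrc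
  refine nondeg_of_chart hq (IsManifold.chart_mem_maximalAtlas (I := 𝓡 n) (n := ∞) (f.c i))
    hsrc' ?_ ?_
  · exact cd_crit (f.c i) hq hsrc hz
  · exact ha i _ hu (cd_crit (f.c i) hq hsrc hz)

end Pool.Agent.X84.Fm
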