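import Pool.Agent.X84.Fm.Nd
import Pool.Agent.TH80.CLX.Fam

/-!
# Smooth dependence of flows on parameters; families of time maps
-/

open scoped Topology ContDiff Manifold
open Set Filter Bundle MeasureTheory Pool.Agent.Helper186 Pool.Agent.H826R2.Wein

set_option autoImplicit false
set_option linter.unusedSectionVars false

noncomputable section

namespace Pool.Agent.X84.Fm

open Pool.Agent.X84.Fl

universe u v

section par

variable {E : Type u} [NormedAddCommGroup E] [NormedSpace ℝ E] [FiniteDimensional ℝ E]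
  {P : Type v} [TopologicalSpace P] [ChartedSpace E P] [IsManifold 𝓘(ℝ, E) ∞ P]
  [T2Space P] [CompactSpace P] {k : ℕ}

/-- the parameter space -/
abbrev Kp (k : ℕ) : Type := Fin k → ℝ

/-- affine family of fields -/
def aff (X : (x : P) → TangentSpace 𝓘(ℝ, E) x) (Y : Fin k → (x : P) → TangentSpace 𝓘(ℝ, E) x)
    (s : Kp k) (x : P) : TangentSpace 𝓘(ℝ, E) x := X x + ∑ j, s j • Y j x

variable {X : (x : P) → TangentSpace 𝓘(ℝ, E) x}
  {Y : Fin k → (x : P) → TangentSpace 𝓘(ℝ, E) x}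

theorem aff_smooth (hX : SmF X) (hY : ∀ j, SmF (Y j)) :
    ContMDiff (𝓘(ℝ, Kp k).prod 𝓘(ℝ, E)) 𝓘(ℝ, E).tangent ∞
      (fun p : Kp k × P => (⟨p.2, aff X Y p.1 p.2⟩ : TangentBundle 𝓘(ℝ, E) P)) := by
  classical
  have hsnd : ContMDiff (𝓘(ℝ, Kp k).prod 𝓘(ℝ, E)) 𝓘(ℝ, E) ∞ (fun p : Kp k × P => p.2) :=
    contMDiff_snd
  have hco : ∀ j : Fin k, ContMDiff (𝓘(ℝ, Kp k).prod 𝓘(ℝ, E)) 𝓘(ℝ, ℝ) ∞
      (fun p : Kp k × P => p.1 j) := fun j =>
    (contDiff_apply ℝ ℝ j).contMDiff.comp contMDiff_fst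
  have hsum : ∀ S : Finset (Fin k), ContMDiff (𝓘(ℝ, Kp k).prod 𝓘(ℝ, E)) 𝓘(ℝ, E).tangent ∞
      (fun p : Kp k × P => (⟨p.2, ∑ j ∈ S, p.1 j • Y j p.2⟩ : TangentBundle 𝓘(ℝ, E) P)) := by
    intro S
    induction S using Finset.induction_on with
    | empty =>
      simp only [Finset.sum_empty]
      exact fun p => contMDiffAt_zero_along (hsnd p)
    | insert a S ha ih =>
      simp only [Finset.sum_insert ha]
      intro p
      refine contMDiffAt_add_along ?_ (ih p)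
      refine contMDiffAt_smul_along (hco a p) ?_
      exact ((hY a).comp hsnd) p
  intro p
  exact contMDiffAt_add_along (((hX).comp hsnd) p) (hsum Finset.univ p)

/-- the field on the product with the parameter space -/
def parField (Z : Kp k → (x : P) → TangentSpace 𝓘(ℝ, E) x) (p : Kp k × P) :
    TangentSpace (𝓘(ℝ, Kp k).prod 𝓘(ℝ, E)) p := ((0 : Kp k), Z p.1 p.2)

theorem parField_smooth {Z : Kp k → (x : P) → TangentSpace 𝓘(ℝ, E) x}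
    (hZ : ContMDiff (𝓘(ℝ, Kp k).prod 𝓘(ℝ, E)) 𝓘(ℝ, E).tangent ∞
      (fun p : Kp k × P => (⟨p.2, Z p.1 p.2⟩ : TangentBundle 𝓘(ℝ, E) P))) :
    ContMDiff (𝓘(ℝ, Kp k).prod 𝓘(ℝ, E)) (𝓘(ℝ, Kp k).prod 𝓘(ℝ, E)).tangent ∞
      (fun p : Kp k × P => (⟨p, parField Z p⟩ :
        TangentBundle (𝓘(ℝ, Kp k).prod 𝓘(ℝ, E)) (Kp k × P))) := by
  have h1 : ContMDiff (𝓘(ℝ, Kp k).prod 𝓘(ℝ, E)) 𝓘(ℝ, Kp k).tangent ∞
      (fun p : Kp k × P => (⟨p.1, (0 : Kp k)⟩ : TangentBundle 𝓘(ℝ, Kp k) (Kp k))) := by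
    have h2 : ContMDiff 𝓘(ℝ, Kp k) 𝓘(ℝ, Kp k).tangent ∞
        (fun s : Kp k => (⟨s, (0 : Kp k)⟩ : TangentBundle 𝓘(ℝ, Kp k) (Kp k))) :=
      contMDiff_vectorSpace_iff_contDiff.2 contDiff_const
    exact h2.comp contMDiff_fst
  exact (contMDiff_equivTangentBundleProd_symm (I := 𝓘(ℝ, Kp k)) (M := Kp k) (I' := 𝓘(ℝ, E))
    (M' := P)).comp (h1.prodMk hZ)

theorem par_curve {Z : Kp k → (x : P) → TangentSpace 𝓘(ℝ, E) x} {s : Kp k} {c : ℝ → P}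
    (hc : IsMIntegralCurve (I := 𝓘(ℝ, E)) c (Z s)) :
    IsMIntegralCurve (I := 𝓘(ℝ, Kp k).prod 𝓘(ℝ, E)) (fun t => (s, c t)) (parField Z) := by
  intro t
  have h1 : HasMFDerivAt 𝓘(ℝ, ℝ) 𝓘(ℝ, Kp k) (fun _ : ℝ => s) t (0 : ℝ →L[ℝ] Kp k) :=
    hasMFDerivAt_const s t
  have h3 := h1.prodMk (hc t)
  refine h3.congr_mfderiv ?_
  refine ContinuousLinearMap.ext fun (r : ℝ) => Prod.ext ?_ rfl
  show (0 : Kp k) = r • (0 : Kp k)
  rw [smul_zero]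

/-- **Smooth dependence on parameters.** -/
theorem par_flow {Z : Kp k → (x : P) → TangentSpace 𝓘(ℝ, E) x}
    (hZ : ContMDiff (𝓘(ℝ, Kp k).prod 𝓘(ℝ, E)) 𝓘(ℝ, E).tangent ∞
      (fun p : Kp k × P => (⟨p.2, Z p.1 p.2⟩ : TangentBundle 𝓘(ℝ, E) P)))
    {φ : Kp k → Flow ℝ P} (hφ : ∀ s, IsFl (Z s) (φ s)) (T : ℝ) :
    ContMDiff (𝓘(ℝ, Kp k).prod 𝓘(ℝ, E)) 𝓘(ℝ, E) ∞ (fun p : Kp k × P => φ p.1 T p.2) := by
  have : IsManifold (𝓘(ℝ, Kp k).prod 𝓘(ℝ, E)) 1 (Kp k × P) := IsManifold.of_le (n := ∞) (by simp)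
  have h1 := contMDiff_flow (I := 𝓘(ℝ, Kp k).prod 𝓘(ℝ, E)) (M := Kp k × P)
    (V := parField Z) (parField_smooth hZ) (Fl := fun p t => (p.1, φ p.1 t p.2))
    (fun p => by
      show (p.1, φ p.1 0 p.2) = p
      rw [Flow.map_zero_apply])
    (fun p => par_curve (hφ p.1 p.2))
  have h2 : ContMDiff (𝓘(ℝ, Kp k).prod 𝓘(ℝ, E)) ((𝓘(ℝ, Kp k).prod 𝓘(ℝ, E)).prod 𝓘(ℝ, ℝ)) ∞
      (fun p : Kp k × P => (p, T)) := contMDiff_id.prodMk contMDiff_const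
  exact contMDiff_snd.comp (h1.comp h2)

end par

open Pool.Agent.H718R2.G Pool.Agent.TH80.OMS Pool.Agent.Y504.CO Pool.Agent.Y318.MN
open Pool.Agent.W564.SC

variable {n : ℕ} {N : Type u} [TopologicalSpace N] [T2Space N] [CompactSpace N]
  [ChartedSpace (V n) N] [IsManifold (𝓡 n) ∞ N] {k : ℕ}

/-- a map of a smooth flow is smooth -/
theorem flow_map_smooth {Z : (x : N) → TangentSpace (𝓡 n) x} (hZ : SmF (E := V n) Z)
    {φ : Flow ℝ N} (hφ : IsFl (E := V n) Z φ) (T : ℝ) :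
    ContMDiff (𝓡 n) (𝓡 n) ∞ (φ T) := by
  have : IsManifold (𝓡 n) 1 N := IsManifold.of_le (n := ∞) (by simp)
  have h1 := contMDiff_flow (I := 𝓡 n) hZ (Fl := fun x t => φ t x)
    (fun x => Flow.map_zero_apply _ _) hφ
  have h2 : ContMDiff (𝓡 n) ((𝓡 n).prod 𝓘(ℝ, ℝ)) ∞ (fun x : N => (x, T)) :=
    contMDiff_id.prodMk contMDiff_const
  exact h1.comp h2

/-- the time map as a diffeomorphism -/
def timeMap {Z : (x : N) → TangentSpace (𝓡 n) x} (hZ : SmF (E := V n) Z)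
    {φ : Flow ℝ N} (hφ : IsFl (E := V n) Z φ) (T : ℝ) (r : ℕ∞) : DiffM n N r where
  toFun := φ T
  invFun := φ (-T)
  left_inv x := by
    show φ (-T) (φ T x) = x
    rw [← φ.map_add]
    simp
  right_inv x := by
    show φ T (φ (-T) x) = x
    rw [← φ.map_add]
    simp
  contMDiff_toFun := (flow_map_smooth hZ hφ T).of_le (WithTop.coe_le_coe.2 le_top)
  contMDiff_invFun := (flow_map_smooth hZ hφ (-T)).of_le (WithTop.coe_le_coe.2 le_top)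

theorem timeMap_apply {Z : (x : N) → TangentSpace (𝓡 n) x} (hZ : SmF (E := V n) Z)
    {φ : Flow ℝ N} (hφ : IsFl (E := V n) Z φ) (T : ℝ) (r : ℕ∞) (x : N) :
    timeMap hZ hφ T r x = φ T x := rfl

/-- **Time maps stay in a neighbourhood.** -/
theorem time_near {r : ℕ∞} (hr : 1 ≤ r) {X : (x : N) → TangentSpace (𝓡 n) x}
    {Y : Fin k → (x : N) → TangentSpace (𝓡 n) x} (hX : SmF (E := V n) X)
    (hY : ∀ j, SmF (E := V n) (Y j)) {φ : Flow ℝ N} (hφ : IsFl (E := V n) X φ) (T : ℝ)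
    (F : DiffM n N r) (hF : ∀ x, F x = φ T x) (U : Set (DiffM n N r))
    (hU : IsOpen[strongTop n N r] U) (hFU : F ∈ U) :
    ∃ κ : ℝ, 0 < κ ∧ ∀ s : Kp k, ‖s‖ < κ → ∀ ψ : Flow ℝ N,
      IsFl (E := V n) (aff X Y s) ψ → ∃ G ∈ U, ∀ x, G x = ψ T x := by
  rcases isEmpty_or_nonempty N with hN | ⟨⟨z⟩⟩
  · exact ⟨1, one_pos, fun s _ ψ _ => ⟨F, hFU, fun x => hN.elim x⟩⟩
  have hZ := aff_smooth (E := V n) hX hY
  have hZs : ∀ s, SmF (E := V n) (aff X Y s) := fun s => by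
    have h2 : ContMDiff (𝓡 n) (𝓘(ℝ, Kp k).prod (𝓡 n)) ∞ (fun x : N => (s, x)) :=
      contMDiff_const.prodMk contMDiff_id
    exact hZ.comp h2
  choose Φ hΦ using fun s => exists_flow (hZs s)
  let H : Kp k → DiffM n N r := fun s => timeMap (hZs s) (hΦ s) T r
  have hfam : IsFam n N r H := by
    intro y
    exact ((par_flow hZ hΦ T).of_le (WithTop.coe_le_coe.2 le_top)) ((0 : Kp k), y)
  have hX0 : aff X Y (0 : Kp k) = X := by
    funext x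
    unfold aff
    simp
  have huniq : ∀ (s : Kp k) (ψ : Flow ℝ N), IsFl (E := V n) (aff X Y s) ψ → ∀ x,
      Φ s T x = ψ T x := by
    intro s ψ hψ x
    have h1 := flow_unique (hZs s) (hΦ s) (hψ x) T
    simp only [Flow.map_zero_apply] at h1
    exact h1.symm
  have h0 : H 0 = F := by
    apply Diffeomorph.ext
    intro x
    rw [hF]
    exact huniq 0 φ (by rw [hX0]; exact hφ) x
  obtain ⟨κ, hκ, h1⟩ := Pool.Agent.TH80.CLX.fam_mem r hr H hfam z U hU (by rw [h0]; exact hFU)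
  exact ⟨κ, hκ, fun s hs ψ hψ => ⟨H s, h1 s hs, fun x => huniq s ψ hψ x⟩⟩

end Pool.Agent.X84.Fm
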