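import Mathlib

/-!
# Generic nondegenerate zeros
-/

open Set Filter Topology MeasureTheory

set_option autoImplicit false

namespace Pool.Agent.X84.Fm

variable {E A : Type*} [NormedAddCommGroup E] [NormedSpace ℝ E] [FiniteDimensional ℝ E]
  [NormedAddCommGroup A] [NormedSpace ℝ A] [FiniteDimensional ℝ A] [MeasurableSpace A] [BorelSpace A]

theorem generic_det (μ : Measure A) [μ.IsAddHaarMeasure] {U : Set E} (hU : IsOpen U) (Φ : E × A → E)
    (hΦ : ContDiffOn ℝ 1 Φ (U ×ˢ univ)) (L : E → A)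
    (hL : ∀ u ∈ U, ∀ a b, Φ (u, a + L b) = Φ (u, a) + b) :
    ∀ᵐ a ∂μ, ∀ u ∈ U, Φ (u, a) = 0 → ∀ w, fderiv ℝ (fun v => Φ (v, a)) u w = 0 → w = 0 := by
  borelize E
  set ν : Measure E := Measure.addHaar with hν
  have hUo : IsOpen (U ×ˢ (univ : Set A)) := hU.prod isOpen_univ
  set Θ : E × A → E × A := fun p => (Φ p, p.2) with hΘ
  have hdΦ : ∀ p ∈ U ×ˢ (univ : Set A), DifferentiableAt ℝ Φ p := fun p hp =>
    ((hΦ.differentiableOn one_ne_zero) p hp).differentiableAt (hUo.mem_nhds hp)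
  have hd : ∀ p ∈ U ×ˢ (univ : Set A), DifferentiableAt ℝ Θ p := fun p hp =>
    (hdΦ p hp).prodMk differentiableAt_snd
  have hc : ∀ p ∈ U ×ˢ (univ : Set A), HasFDerivAt Θ (fderiv ℝ Θ p) p := fun p hp =>
    (hd p hp).hasFDerivAt
  set s : Set (E × A) := {p | p ∈ U ×ˢ (univ : Set A) ∧ (fderiv ℝ Θ p).det = 0} with hs
  set N := Θ '' s with hN
  have hN0 : (ν.prod μ) N = 0 :=
    addHaar_image_eq_zero_of_det_fderivWithin_eq_zero (ν.prod μ)
      (fun p hp => (hc p hp.1).hasFDerivWithinAt) fun p hp => hp.2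
  have h1 := Measure.measure_ae_null_of_prod_null hN0
  obtain ⟨c, hc0⟩ := h1.exists
  have hshift : ∀ a, (0, a) ∈ N → (c, a + L c) ∈ N := by
    rintro a ⟨⟨u, a'⟩, ⟨hua, hdet⟩, heq⟩
    simp only [hΘ, Prod.mk.injEq] at heq
    obtain ⟨h2, rfl⟩ := heq
    refine ⟨(u, a' + L c), ⟨⟨hua.1, mem_univ _⟩, ?_⟩, ?_⟩
    · have h3 : (fun p : E × A => Θ (p + (0, L c))) =ᶠ[𝓝 (u, a')] fun p => Θ p + (c, L c) := by
        filter_upwards [hUo.mem_nhds hua] with p hp
        simp only [hΘ]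
        have h4 : p + (0, L c) = (p.1, p.2 + L c) := by
          ext <;> simp
        rw [h4, hL p.1 hp.1]
        rfl
      have h5 : HasFDerivAt Θ (fderiv ℝ Θ ((u, a') + (0, L c))) ((u, a') + (0, L c)) := by
        apply hc
        exact ⟨by simpa using hua.1, mem_univ _⟩
      have h6 : HasFDerivAt (fun p : E × A => Θ (p + (0, L c)))
          (fderiv ℝ Θ ((u, a') + (0, L c))) (u, a') := by
        have h6 : HasFDerivAt (fun p : E × A => p + (0, L c)) (ContinuousLinearMap.id ℝ (E × A))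
            (u, a') := (hasFDerivAt_id (u, a')).add_const (0, L c)
        exact HasFDerivAt.comp (u, a') h5 h6
      have h7 : HasFDerivAt (fun p : E × A => Θ (p + (0, L c))) (fderiv ℝ Θ (u, a')) (u, a') :=
        ((hc _ hua).add_const (c, L c)).congr_of_eventuallyEq h3
      have h8 := h6.unique h7
      have h9 : ((u, a') + (0, L c) : E × A) = (u, a' + L c) := by
        ext <;> simp
      rw [h9] at h8
      rw [h8]
      exact hdet
    · simp only [hΘ, Prod.mk.injEq, and_true]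
      rw [hL u hua.1, h2, zero_add]
  have hnull : μ {a | (0, a) ∈ N} = 0 := by
    have h2 : {a | ((0 : E), a) ∈ N} ⊆ (fun a => a + L c) ⁻¹' (Prod.mk c ⁻¹' N) := fun a ha =>
      hshift a ha
    refine measure_mono_null h2 ?_
    rw [measure_preimage_add_right]
    exact hc0
  have hae : ∀ᵐ a ∂μ, a ∉ {a | ((0 : E), a) ∈ N} := measure_eq_zero_iff_ae_notMem.1 hnull
  filter_upwards [hae] with a ha u hu h0 w hw
  have hmem : (u, a) ∈ U ×ˢ (univ : Set A) := ⟨hu, mem_univ _⟩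
  have hdet : (fderiv ℝ Θ (u, a)).det ≠ 0 := by
    intro h2
    exact ha ⟨(u, a), ⟨hmem, h2⟩, by simp only [hΘ, h0]⟩
  have hinj : Function.Injective (fderiv ℝ Θ (u, a)) := by
    set B := (fderiv ℝ Θ (u, a)).toContinuousLinearEquivOfDetNeZero hdet with hB
    have h2 := B.injective
    rwa [show (B : E × A → E × A) = fderiv ℝ Θ (u, a) from funext fun x =>
      (fderiv ℝ Θ (u, a)).toContinuousLinearEquivOfDetNeZero_apply hdet x] at h2
  have h2 : HasFDerivAt (fun v : E => (v, a)) (ContinuousLinearMap.inl ℝ E A) u :=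
    hasFDerivAt_prodMk_left u a
  have h3 : HasFDerivAt (fun v => Θ (v, a))
      ((fderiv ℝ Θ (u, a)).comp (ContinuousLinearMap.inl ℝ E A)) u :=
    HasFDerivAt.comp u (hc _ hmem) h2
  have h4 : HasFDerivAt (fun v => Φ (v, a))
      ((fderiv ℝ Φ (u, a)).comp (ContinuousLinearMap.inl ℝ E A)) u :=
    HasFDerivAt.comp u (hdΦ _ hmem).hasFDerivAt h2
  have h5 : HasFDerivAt (fun v => Θ (v, a)) (((fderiv ℝ Φ (u, a)).comp
      (ContinuousLinearMap.inl ℝ E A)).prod (0 : E →L[ℝ] A)) u :=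
    h4.prodMk (hasFDerivAt_const a u)
  have h6 := h3.unique h5
  rw [h4.fderiv] at hw
  have h7 := DFunLike.congr_fun h6 w
  have h8 : fderiv ℝ Θ (u, a) (w, 0) = 0 := by
    have h9 : (((fderiv ℝ Φ (u, a)).comp (ContinuousLinearMap.inl ℝ E A)).prod (0 : E →L[ℝ] A)) w =
        ((((fderiv ℝ Φ (u, a)).comp (ContinuousLinearMap.inl ℝ E A)) w, 0) : E × A) := rfl
    rw [h9, hw] at h7
    exact h7
  have h10 := hinj (h8.trans (map_zero (fderiv ℝ Θ (u, a))).symm)
  exact (Prod.mk.inj h10).1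

/-- Nondegenerate critical points in a change of coordinates. -/
theorem nondeg_change {g : E → ℝ} {φ : E → E} {u : E} (hg : ContDiffAt ℝ 2 g (φ u))
    (hφ : ContDiffAt ℝ 2 φ u) (hinj : ∀ w, fderiv ℝ φ u w = 0 → w = 0) (h0 : fderiv ℝ g (φ u) = 0)
    (hnd : ∀ w, fderiv ℝ (fderiv ℝ g) (φ u) w = 0 → w = 0) (v : E)
    (hv : fderiv ℝ (fderiv ℝ (g ∘ φ)) u v = 0) : v = 0 := by
  have hφ1 : DifferentiableAt ℝ φ u := hφ.differentiableAt (by norm_num)
  have hev : fderiv ℝ (g ∘ φ) =ᶠ[𝓝 u] fun w => (fderiv ℝ g (φ w)).comp (fderiv ℝ φ w) := by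
    have h1 : ∀ᶠ w in 𝓝 u, ContDiffAt ℝ 2 φ w := hφ.eventually (by simp)
    have h2 : ∀ᶠ w in 𝓝 u, ContDiffAt ℝ 2 g (φ w) :=
      hφ1.continuousAt.eventually (hg.eventually (by simp))
    filter_upwards [h1, h2] with w k1 k2
    exact fderiv_comp w (k2.differentiableAt (by norm_num)) (k1.differentiableAt (by norm_num))
  rw [hev.fderiv_eq] at hv
  have hd1 : DifferentiableAt ℝ (fderiv ℝ g) (φ u) :=
    (hg.fderiv_right (m := 1) (by norm_num)).differentiableAt (by norm_num)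
  have hd2 : DifferentiableAt ℝ (fderiv ℝ φ) u :=
    (hφ.fderiv_right (m := 1) (by norm_num)).differentiableAt (by norm_num)
  have h1 : HasFDerivAt (fun w => fderiv ℝ g (φ w)) ((fderiv ℝ (fderiv ℝ g) (φ u)).comp
      (fderiv ℝ φ u)) u := HasFDerivAt.comp u hd1.hasFDerivAt hφ1.hasFDerivAt
  have h2 := (h1.clm_comp hd2.hasFDerivAt).fderiv
  rw [h2] at hv
  have h3 : (fderiv ℝ (fderiv ℝ g) (φ u) (fderiv ℝ φ u v)).comp (fderiv ℝ φ u) = 0 := by
    rw [← hv, h0]
    ext w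
    simp
  have hsurj : Function.Surjective (fderiv ℝ φ u) := by
    have hi : Function.Injective ((fderiv ℝ φ u : E →L[ℝ] E) : E →ₗ[ℝ] E) := by
      rw [injective_iff_map_eq_zero]
      exact fun w hw => hinj w hw
    exact LinearMap.injective_iff_surjective.1 hi
  apply hinj
  apply hnd
  ext w
  obtain ⟨w', rfl⟩ := hsurj w
  exact DFunLike.congr_fun h3 w'

end Pool.Agent.X84.Fm
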